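import Pool.Agent.Helper85.LN2.Goals

/-!
# AM2: the index bound for amenable automaton groups
-/

namespace Pool.Agent.Helper2.LN2

open Pool.Agent.Helper85.LN Pool.Agent.Helper85.LN2

variable {m d : ℕ} {A : Auto (Fin m) (Fin d)}

theorem inL_one (x : Fin d) : InL A x 1 := ⟨1, A.G.one_mem, fun _ => rfl⟩

theorem inL_mul {x : Fin d} {g g' : Equiv.Perm (List (Fin d))} (h : InL A x g) (h' : InL A x g') :
    InL A x (g * g') := by
  obtain ⟨s, hs, h⟩ := h
  obtain ⟨s', hs', h'⟩ := h'
  refine ⟨s * s', A.G.mul_mem hs hs', fun w => ?_⟩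
  rw [Equiv.Perm.mul_apply, h', h, Equiv.Perm.mul_apply]

theorem inL_inv {x : Fin d} {g : Equiv.Perm (List (Fin d))} (h : InL A x g) : InL A x g⁻¹ := by
  obtain ⟨s, hs, h⟩ := h
  refine ⟨s⁻¹, A.G.inv_mem hs, fun w => ?_⟩
  rw [Equiv.Perm.inv_eq_iff_eq, h]
  simp

/-- Conjugation by a section. -/
theorem exists_conj (hT : Trans A) (a x : Fin d) : ∃ k ∈ A.G, ∀ g, InL A x (k * g * k⁻¹) →
    InL A a g := by
  obtain ⟨t, ht, hta⟩ := hT a x
  obtain ⟨w, rfl⟩ := (A.mem_G_iff t).1 ht
  rw [A.val_apply_cons] at hta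
  have hx : A.toWA.ltw w a = x := by
    have := (List.cons.inj hta).1
    exact this
  refine ⟨A.val (A.toWA.scw w a), A.val_mem _, fun g hg => ?_⟩
  obtain ⟨s, hs, h⟩ := hg
  set k := A.val (A.toWA.scw w a) with hk
  have hw : ∀ u, A.val w (a :: u) = x :: k u := by
    intro u
    rw [A.val_apply_cons, hx]
  refine ⟨(A.val w)⁻¹ * s * A.val w, A.G.mul_mem (A.G.mul_mem (A.G.inv_mem ht) hs) ht,
    fun u => ?_⟩
  rw [Equiv.Perm.mul_apply, hw, Equiv.Perm.mul_apply, h, Equiv.Perm.inv_eq_iff_eq, hw]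
  simp

open Classical in
/-- Number of elements of `F` moved out of `F` by `g`. -/
noncomputable def bd (F : Finset (Equiv.Perm (List (Fin d)))) (g : Equiv.Perm (List (Fin d))) : ℕ :=
  (F.filter fun f => g * f ∉ F).card

theorem bd_mul (F : Finset (Equiv.Perm (List (Fin d)))) (g h : Equiv.Perm (List (Fin d))) :
    bd F (g * h) ≤ bd F g + bd F h := by
  classical
  unfold bd
  have hsub : (F.filter fun f => g * h * f ∉ F) ⊆ (F.filter fun f => h * f ∉ F) ∪
      ((F.filter fun f => g * f ∉ F).image (fun f => h⁻¹ * f)) := by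
    intro f hf
    rw [Finset.mem_filter] at hf
    by_cases h1 : h * f ∈ F
    · apply Finset.mem_union_right
      rw [Finset.mem_image]
      refine ⟨h * f, Finset.mem_filter.2 ⟨h1, ?_⟩, by group⟩
      rw [← mul_assoc]
      exact hf.2
    · exact Finset.mem_union_left _ (Finset.mem_filter.2 ⟨hf.1, h1⟩)
  have h1 := Finset.card_le_card hsub
  have h2 := Finset.card_union_le (F.filter fun f => h * f ∉ F)
    ((F.filter fun f => g * f ∉ F).image (fun f => h⁻¹ * f))
  have h3 := Finset.card_image_le (s := F.filter fun f => g * f ∉ F) (f := fun f => h⁻¹ * f)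
  omega

theorem bd_inv (F : Finset (Equiv.Perm (List (Fin d)))) (g : Equiv.Perm (List (Fin d))) :
    bd F g⁻¹ = bd F g := by
  classical
  unfold bd
  have h1 : (F.filter fun f => g⁻¹ * f ∈ F).card = (F.filter fun f => g * f ∈ F).card := by
    apply Finset.card_bij' (fun f _ => g⁻¹ * f) (fun f _ => g * f)
    · intro f hf
      rw [Finset.mem_filter] at hf ⊢
      exact ⟨hf.2, by rw [mul_inv_cancel_left]; exact hf.1⟩
    · intro f hf
      rw [Finset.mem_filter] at hf ⊢
      exact ⟨hf.2, by rw [inv_mul_cancel_left]; exact hf.1⟩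
    · intro f _
      exact mul_inv_cancel_left g f
    · intro f _
      exact inv_mul_cancel_left g f
  have h2 := Finset.card_filter_add_card_filter_not (s := F) (fun f => g⁻¹ * f ∈ F)
  have h3 := Finset.card_filter_add_card_filter_not (s := F) (fun f => g * f ∈ F)
  omega

theorem bd_one (F : Finset (Equiv.Perm (List (Fin d)))) : bd F 1 = 0 := by
  classical
  unfold bd
  rw [Finset.card_eq_zero, Finset.filter_eq_empty_iff]
  intro f hf
  rw [one_mul]
  exact not_not.2 hf

theorem bd_val (F : Finset (Equiv.Perm (List (Fin d)))) (N : ℕ)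
    (hF : ∀ q, N * bd F (A.perm q) ≤ F.card) (w : List (S (Fin m))) :
    N * bd F (A.val w) ≤ w.length * F.card := by
  induction w with
  | nil =>
    rw [A.val_nil, bd_one]
    simp
  | cons s w ih =>
    rw [A.val_cons, List.length_cons]
    have h1 := bd_mul F (A.ps s) (A.val w)
    have h2 : N * bd F (A.ps s) ≤ F.card := by
      obtain ⟨q, b⟩ := s
      cases b
      · have h3 : A.ps (q, false) = (A.perm q)⁻¹ := rfl
        rw [h3, bd_inv]
        exact hF q
      · exact hF q
    calc N * bd F (A.ps s * A.val w) ≤ N * (bd F (A.ps s) + bd F (A.val w)) :=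
          Nat.mul_le_mul_left _ h1
      _ = N * bd F (A.ps s) + N * bd F (A.val w) := by ring
      _ ≤ F.card + w.length * F.card := Nat.add_le_add h2 ih
      _ = (w.length + 1) * F.card := by ring

/-- Many elements in different cosets. -/
theorem exists_reps {a : Fin d} (h : ¬ SecIdx A a d) (n : ℕ) (hn : n ≤ d + 1) :
    ∃ E : Finset (Equiv.Perm (List (Fin d))), E.card = n ∧ (∀ e ∈ E, e ∈ A.G) ∧
      ∀ e ∈ E, ∀ e' ∈ E, e ≠ e' → ¬ InL A a (e⁻¹ * e') := by
  classical
  induction n with
  | zero => exact ⟨∅, by simp, by simp, by simp⟩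
  | succ n ih =>
    obtain ⟨E, hc, hG, hE⟩ := ih (by omega)
    have h1 : ¬ ∀ g ∈ A.G, ∃ e ∈ E, e ∈ A.G ∧ ∃ h ∈ A.G,
        ∀ w, h (a :: w) = a :: (e⁻¹ * g) w := by
      intro h2
      exact h ⟨E, by omega, h2⟩
    push Not at h1
    obtain ⟨g, hg, h1⟩ := h1
    have h2 : ∀ e ∈ E, ¬ InL A a (e⁻¹ * g) := by
      rintro e he ⟨s, hs, hw⟩
      obtain ⟨w, hw'⟩ := h1 e he (hG e he) s hs
      exact hw' (hw w)
    have h3 : g ∉ E := by
      intro hgE
      apply h2 g hgE
      rw [inv_mul_cancel]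
      exact inL_one a
    refine ⟨insert g E, by rw [Finset.card_insert_of_notMem h3, hc], ?_, ?_⟩
    · intro e he
      rcases Finset.mem_insert.1 he with rfl | he
      · exact hg
      · exact hG e he
    · intro e he e' he' hne hL
      rcases Finset.mem_insert.1 he with h4 | h4
      · rcases Finset.mem_insert.1 he' with h5 | h5
        · exact hne (h4.trans h5.symm)
        · apply h2 e' h5
          rw [h4] at hL
          have := inL_inv hL
          rwa [mul_inv_rev, inv_inv] at this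
      · rcases Finset.mem_insert.1 he' with h5 | h5
        · rw [h5] at hL
          exact h2 e h4 hL
        · exact hE e h4 e' h5 hne hL

theorem am2 : S_AM2 := by
  classical
  intro hST hAM m d A hLN hRec hT hA a
  by_contra hno
  have hd : 0 < d := lt_of_le_of_lt (Nat.zero_le _) a.2
  obtain ⟨E, hc, hG, hE⟩ := exists_reps hno (d + 1) le_rfl
  -- representatives for every letter
  have hx : ∀ x : Fin d, ∃ E' : Finset (Equiv.Perm (List (Fin d))), E'.card = d + 1 ∧
      (∀ e ∈ E', e ∈ A.G) ∧ ∀ e ∈ E', ∀ e' ∈ E', e ≠ e' → ¬ InL A x (e⁻¹ * e') := by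
    intro x
    obtain ⟨k, hk, hconj⟩ := exists_conj hT a x
    refine ⟨E.image (fun e => e * k⁻¹), ?_, ?_, ?_⟩
    · rw [Finset.card_image_of_injective _ (mul_left_injective _), hc]
    · intro e he
      obtain ⟨e0, he0, rfl⟩ := Finset.mem_image.1 he
      exact A.G.mul_mem (hG _ he0) (A.G.inv_mem hk)
    · intro e he e' he' hne hL
      obtain ⟨e0, he0, rfl⟩ := Finset.mem_image.1 he
      obtain ⟨e1, he1, rfl⟩ := Finset.mem_image.1 he'
      apply hE e0 he0 e1 he1 (fun h => hne (by rw [h]))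
      apply hconj
      have e2 : (e0 * k⁻¹)⁻¹ * (e1 * k⁻¹) = k * (e0⁻¹ * e1) * k⁻¹ := by group
      rw [← e2]
      exact hL
  choose E' hc' hG' hE' using hx
  -- a common bound for the lengths
  have hlen : ∃ n : ℕ, ∀ x, ∀ e ∈ E' x, ∃ w : List (S (Fin m)), A.val w = e ∧ w.length ≤ n := by
    have h1 : ∀ e ∈ Finset.univ.biUnion E', ∃ w : List (S (Fin m)), A.val w = e := by
      intro e he
      obtain ⟨x, _, hx⟩ := Finset.mem_biUnion.1 he
      exact (A.mem_G_iff e).1 (hG' x e hx)
    choose! f hf using h1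
    refine ⟨(Finset.univ.biUnion E').sup (fun e => (f e).length), fun x e he => ?_⟩
    have h2 : e ∈ Finset.univ.biUnion E' := Finset.mem_biUnion.2 ⟨x, Finset.mem_univ _, he⟩
    exact ⟨f e, hf e h2, Finset.le_sup (f := fun e => (f e).length) h2⟩
  obtain ⟨n, hn⟩ := hlen
  obtain ⟨ω, hω, hω'⟩ := hST m d A.tr (fun q u => hRec q u)
  obtain ⟨F, hFne, _, hFb, x, h, hh, hF1⟩ := hAM m d A ω hd hLN hω hω' hA (d * (d + 1) * n + 1)
  set N := d * (d + 1) * n + 1 with hN
  have hFb' : ∀ q, N * bd F (A.perm q) ≤ F.card := fun q => hFb q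
  set F1 := F.filter fun g => InL A x (g * h⁻¹) with hF1def
  -- pieces
  let Pc : Equiv.Perm (List (Fin d)) → Finset (Equiv.Perm (List (Fin d))) := fun e =>
    (F1.image (fun f => e * f)).filter (· ∈ F)
  have hPc : ∀ e, F1.card ≤ (Pc e).card + bd F e := by
    intro e
    have h1 : (F1.image (fun f => e * f)).card = F1.card :=
      Finset.card_image_of_injective _ (mul_right_injective _)
    have h2 := Finset.card_filter_add_card_filter_not (s := F1.image (fun f => e * f)) (· ∈ F)
    have h3 : ((F1.image (fun f => e * f)).filter (· ∉ F)).card ≤ bd F e := by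
      unfold bd
      have h4 : (F1.image (fun f => e * f)).filter (· ∉ F) ⊆
          (F.filter fun f => e * f ∉ F).image (fun f => e * f) := by
        intro g hg
        rw [Finset.mem_filter, Finset.mem_image] at hg
        obtain ⟨⟨f, hf, rfl⟩, hg⟩ := hg
        rw [hF1def, Finset.mem_filter] at hf
        exact Finset.mem_image.2 ⟨f, Finset.mem_filter.2 ⟨hf.1, hg⟩, rfl⟩
      exact (Finset.card_le_card h4).trans Finset.card_image_le
    have h5 : (Pc e).card = ((F1.image (fun f => e * f)).filter (· ∈ F)).card := rfl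
    omega
  have hdisj : ∀ e ∈ E' x, ∀ e' ∈ E' x, e ≠ e' → Disjoint (Pc e) (Pc e') := by
    intro e he e' he' hne
    rw [Finset.disjoint_left]
    intro g hg hg'
    rw [Finset.mem_filter, Finset.mem_image] at hg hg'
    obtain ⟨⟨f, hf, rfl⟩, _⟩ := hg
    obtain ⟨⟨f', hf', hff⟩, _⟩ := hg'
    rw [hF1def, Finset.mem_filter] at hf hf'
    apply hE' x e' he' e he (Ne.symm hne)
    have h1 : e'⁻¹ * e = (f' * h⁻¹) * (f * h⁻¹)⁻¹ := by
      have h2 : e = e' * f' * f⁻¹ := by
        rw [hff]
        group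
      rw [h2]
      group
    rw [h1]
    exact inL_mul hf'.2 (inL_inv hf.2)
  have hsum : ∑ e ∈ E' x, (Pc e).card ≤ F.card := by
    rw [← Finset.card_biUnion hdisj]
    apply Finset.card_le_card
    intro g hg
    obtain ⟨e, _, hg⟩ := Finset.mem_biUnion.1 hg
    exact (Finset.mem_filter.1 hg).2
  have hsum2 : (d + 1) * F1.card ≤ F.card + ∑ e ∈ E' x, bd F e := by
    have h1 : ∑ e ∈ E' x, F1.card ≤ ∑ e ∈ E' x, ((Pc e).card + bd F e) :=
      Finset.sum_le_sum fun e _ => hPc e
    rw [Finset.sum_const, hc', smul_eq_mul, Finset.sum_add_distrib] at h1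
    omega
  have hbd : N * ∑ e ∈ E' x, bd F e ≤ (d + 1) * (n * F.card) := by
    rw [Finset.mul_sum]
    have h1 : ∀ e ∈ E' x, N * bd F e ≤ n * F.card := by
      intro e he
      obtain ⟨w, rfl, hw⟩ := hn x e he
      exact (bd_val F N hFb' w).trans (Nat.mul_le_mul_right _ hw)
    refine (Finset.sum_le_sum h1).trans ?_
    rw [Finset.sum_const, hc', smul_eq_mul]
  have hpos : 0 < F.card := Finset.card_pos.2 hFne
  have h1 : N * (d + 1) * F.card ≤ N * d * F.card + d * ((d + 1) * (n * F.card)) := by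
    calc N * (d + 1) * F.card ≤ N * (d + 1) * (d * F1.card) := Nat.mul_le_mul_left _ hF1
      _ = N * d * ((d + 1) * F1.card) := by ring
      _ ≤ N * d * (F.card + ∑ e ∈ E' x, bd F e) := Nat.mul_le_mul_left _ hsum2
      _ = N * d * F.card + d * (N * ∑ e ∈ E' x, bd F e) := by ring
      _ ≤ N * d * F.card + d * ((d + 1) * (n * F.card)) :=
          Nat.add_le_add_left (Nat.mul_le_mul_left _ hbd) _
  have h2 : N * F.card ≤ (d * (d + 1) * n) * F.card := by
    have e1 : N * (d + 1) * F.card = N * d * F.card + N * F.card := by ring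
    have e2 : d * ((d + 1) * (n * F.card)) = (d * (d + 1) * n) * F.card := by ring
    rw [e1, e2] at h1
    exact Nat.le_of_add_le_add_left h1
  have h3 := Nat.le_of_mul_le_mul_right h2 hpos
  omega

end Pool.Agent.Helper2.LN2
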